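import Pool.Agent.Helper4.CD.St

/-!
# Project CD (MP_a41ee4_co): module LIM, the limit `ε → 0` of lifted walks
-/

set_option autoImplicit false

namespace Pool.Agent.Helper94.CD

open Pool.Agent.Helper4.CD
open Module Filter Topology

/-- a function to a finite type is constant on a set of an ultrafilter -/
private theorem ultra_const {α β : Type} [Finite β] (U : Ultrafilter α) (key : α → β) :
    ∃ v, ∀ᶠ a in (U : Filter α), key a = v := by
  obtain ⟨v, hv⟩ := (U.map key).eq_pure_of_finite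
  refine ⟨v, ?_⟩
  have h1 : {v} ∈ U.map key := by
    rw [hv]; exact Set.mem_singleton v
  exact h1

section

variable {K : Type} [Field K] [LinearOrder K] [IsStrictOrderedRing K] [TopologicalSpace K] [OrderTopology K]

private theorem tendsto_of_abs {U : Filter K} (hU : Tendsto (fun δ : K => δ) U (𝓝 0)) {a : K → K} {b A : K}
    (h : ∀ᶠ δ in U, |a δ - b| ≤ A * δ) : Tendsto a U (𝓝 b) := by
  have h1 : Tendsto (fun δ : K => b - A * δ) U (𝓝 b) := by
    have := (hU.const_mul A).const_sub b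
    simpa using this
  have h2 : Tendsto (fun δ : K => b + A * δ) U (𝓝 b) := by
    have := (hU.const_mul A).const_add b
    simpa using this
  refine tendsto_of_tendsto_of_tendsto_of_le_of_le' h1 h2 ?_ ?_
  · filter_upwards [h] with δ hδ
    have := (abs_le.1 hδ).1
    linarith
  · filter_upwards [h] with δ hδ
    have := (abs_le.1 hδ).2
    linarith

end

section

variable {K : Type} [Field K] {V W : Type} [AddCommGroup V] [Module K V] [AddCommGroup W]
  [Module K W] {κ M : Type}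

private theorem lift_inl (c : κ → Dual K V) (f : M → Dual K W) (τ : κ → Dual K W) (ε : K) (k : κ) (x : V × W) :
    lift c f τ ε (Sum.inl k) x = c k x.1 + ε * τ k x.2 := by
  simp [lift]

private theorem lift_inr (c : κ → Dual K V) (f : M → Dual K W) (τ : κ → Dual K W) (ε : K) (m : M) (x : V × W) :
    lift c f τ ε (Sum.inr m) x = f m x.2 := by
  simp [lift]

end

/-- the data of one lifted trace (for one value of `δ`) -/
private structure Dat {K : Type} [Field K] [LinearOrder K] {V W : Type} [AddCommGroup V] [Module K V]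
    [AddCommGroup W] [Module K W] {κ M : Type} (c : κ → Dual K V) (r : κ → K) (f : M → Dual K W)
    (τ : κ → Dual K W) (u v : V) (B : K) (δ ε : K) (n : ℕ) (R : κ ⊕ M → K) (z g : ℕ → V × W)
    (h : ℕ → κ ⊕ M) : Prop where
  pos : 0 < ε
  lt : ε < δ
  near : ∀ k, |R (Sum.inl k) - r k| < δ
  start : (z 0).1 = u
  fin : ∀ k, |c k ((z n).1 - v)| < δ
  bd : ∀ i ≤ n, ∀ k, |τ k (z i).2| ≤ B
  tr : Trace (lift c f τ ε) R n z g h

section

variable {K : Type} [Field K] [LinearOrder K] [IsStrictOrderedRing K] [TopologicalSpace K] [OrderTopology K]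
  {V W : Type} [AddCommGroup V] [Module K V] [AddCommGroup W] [Module K W] {κ M : Type}
  {c : κ → Dual K V} {r : κ → K} {f : M → Dual K W} {τ : κ → Dual K W} {u v : V} {B : K}

omit [TopologicalSpace K] [OrderTopology K] in
/-- the rest term tends to zero -/
private theorem rest_bound {δ ε : K} {n : ℕ} {R : κ ⊕ M → K} {z g : ℕ → V × W} {h : ℕ → κ ⊕ M}
    (hd : Dat c r f τ u v B δ ε n R z g h) (i : ℕ) (hi : i ≤ n) (k : κ) : |ε * τ k (z i).2| ≤ B * δ := by
  rw [abs_mul, abs_of_pos hd.pos]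
  have h1 := hd.bd i hi k
  have h2 : 0 ≤ B := (abs_nonneg _).trans h1
  calc ε * |τ k (z i).2| ≤ ε * B := mul_le_mul_of_nonneg_left h1 hd.pos.le
    _ ≤ δ * B := mul_le_mul_of_nonneg_right hd.lt.le h2
    _ = B * δ := mul_comm _ _

/-- mixed steps do not move the limit -/
private theorem mixed_step {U : Filter K} (hU : Tendsto (fun δ : K => δ) U (𝓝 0)) {n : ℕ} {ε : K → K}
    {R : K → κ ⊕ M → K} {z g : K → ℕ → V × W} {h : K → ℕ → κ ⊕ M}
    (hD : ∀ᶠ δ in U, Dat c r f τ u v B δ (ε δ) n (R δ) (z δ) (g δ) (h δ)) {i : ℕ} (hi : i < n) {Z : Set κ}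
    (hZ : ∀ᶠ δ in U, ∀ k ∈ Z, lift c f τ (ε δ) (Sum.inl k) (g δ i) = 0)
    (hs : Submodule.span K (c '' Z) = ⊤) (φ : Dual K V) :
    Tendsto (fun δ => φ (z δ (i + 1)).1 - φ (z δ i).1) U (𝓝 0) := by
  have hφ : φ ∈ Submodule.span K (c '' Z) := by rw [hs]; exact Submodule.mem_top
  induction hφ using Submodule.span_induction with
  | mem x hx =>
    obtain ⟨k, hk, rfl⟩ := hx
    refine tendsto_of_abs hU (A := B + B) ?_
    filter_upwards [hD, hZ] with δ hd hz
    obtain ⟨α, hα, hst⟩ := hd.tr.step i hi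
    have h1 := hz k hk
    rw [lift_inl] at h1
    have e1 : c k (z δ (i + 1)).1 = c k (z δ i).1 + α * c k (g δ i).1 := by
      rw [hst]; simp
    have e2 : τ k (z δ (i + 1)).2 = τ k (z δ i).2 + α * τ k (g δ i).2 := by
      rw [hst]; simp
    have e3 : c k (z δ (i + 1)).1 - c k (z δ i).1 - 0 =
        -(ε δ * τ k (z δ (i + 1)).2) + ε δ * τ k (z δ i).2 := by
      rw [e1, e2]
      linear_combination α * h1
    rw [e3]
    have b1 := rest_bound hd (i + 1) hi k
    have b2 := rest_bound hd i hi.le k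
    calc |-(ε δ * τ k (z δ (i + 1)).2) + ε δ * τ k (z δ i).2|
        ≤ |-(ε δ * τ k (z δ (i + 1)).2)| + |ε δ * τ k (z δ i).2| := abs_add_le _ _
      _ ≤ (B + B) * δ := by
        rw [abs_neg]
        linarith
  | zero =>
    simp only [LinearMap.zero_apply, sub_zero]
    exact tendsto_const_nhds
  | add x y _ _ hx hy =>
    have := hx.add hy
    simp only [add_zero] at this
    refine this.congr fun δ => ?_
    simp only [LinearMap.add_apply]
    ring
  | smul a x _ hx =>
    have := hx.const_mul a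
    simp only [mul_zero] at this
    refine this.congr fun δ => ?_
    simp only [LinearMap.smul_apply, smul_eq_mul]
    ring

/-- pure steps -/
private theorem pure_step {U : Filter K} [U.NeBot] (hU : Tendsto (fun δ : K => δ) U (𝓝 0)) {n : ℕ} {ε : K → K}
    {R : K → κ ⊕ M → K} {z g : K → ℕ → V × W} {h : K → ℕ → κ ⊕ M}
    (hD : ∀ᶠ δ in U, Dat c r f τ u v B δ (ε δ) n (R δ) (z δ) (g δ) (h δ)) {i : ℕ} (hi : i < n) {k : κ} {gh : V}
    (hneg : c k gh < 0) (hh : ∀ᶠ δ in U, h δ i = Sum.inl k)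
    (hg : ∀ᶠ δ in U, ∃ t : K, 0 < t ∧ (g δ i).1 = t • gh) {x : V}
    (hx : ∀ φ : Dual K V, Tendsto (fun δ => φ (z δ i).1) U (𝓝 (φ x))) :
    0 ≤ (r k - c k x) / c k gh ∧
    ∀ φ : Dual K V, Tendsto (fun δ => φ (z δ (i + 1)).1) U (𝓝 (φ (x + ((r k - c k x) / c k gh) • gh))) := by
  obtain ⟨b, hb⟩ : ∃ b : K → K, b = fun δ => (R δ (Sum.inl k) - ε δ * τ k (z δ (i + 1)).2 - c k (z δ i).1) / c k gh :=
    ⟨_, rfl⟩
  have t1 : Tendsto (fun δ => R δ (Sum.inl k)) U (𝓝 (r k)) := by
    refine tendsto_of_abs hU (A := 1) ?_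
    filter_upwards [hD] with δ hd
    rw [one_mul]
    exact (hd.near k).le
  have t2 : Tendsto (fun δ => ε δ * τ k (z δ (i + 1)).2) U (𝓝 0) := by
    refine tendsto_of_abs hU (A := B) ?_
    filter_upwards [hD] with δ hd
    rw [sub_zero]
    exact rest_bound hd (i + 1) hi k
  have t3 : Tendsto b U (𝓝 ((r k - c k x) / c k gh)) := by
    have := ((t1.sub t2).sub (hx (c k))).div_const (c k gh)
    rw [sub_zero] at this
    rw [hb]
    exact this
  have key : ∀ᶠ δ in U, 0 ≤ b δ ∧ (z δ (i + 1)).1 = (z δ i).1 + b δ • gh := by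
    filter_upwards [hD, hh, hg] with δ hd hh' hg'
    obtain ⟨t, ht, hgt⟩ := hg'
    obtain ⟨α, hα, hst⟩ := hd.tr.step i hi
    have h1 := hd.tr.hit i hi
    rw [hh', lift_inl] at h1
    have e1 : (z δ (i + 1)).1 = (z δ i).1 + (α * t) • gh := by
      rw [hst, Prod.fst_add, Prod.smul_fst, hgt, smul_smul]
    have e2 : c k (z δ (i + 1)).1 = c k (z δ i).1 + (α * t) * c k gh := by
      rw [e1]; simp
    have e3 : b δ = α * t := by
      rw [hb]
      simp only
      rw [← h1, div_eq_iff hneg.ne]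
      linear_combination e2
    rw [e3]
    exact ⟨mul_nonneg hα ht.le, e1⟩
  refine ⟨ge_of_tendsto t3 (key.mono fun δ hd => hd.1), fun φ => ?_⟩
  have t4 := (hx φ).add (t3.mul_const (φ gh))
  rw [map_add, map_smul, smul_eq_mul]
  refine t4.congr' ?_
  filter_upwards [key] with δ hd
  rw [hd.2, map_add, map_smul, smul_eq_mul]

end

open Classical in
/-- the limit walk -/
private noncomputable def xb {K : Type} [Field K] {V : Type} [AddCommGroup V] [Module K V] {κ : Type}
    (c : κ → Dual K V) (r : κ → K) (u : V) (act : ℕ → Prop) (gh : ℕ → V) (k : ℕ → κ) : ℕ → V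
  | 0 => u
  | i + 1 =>
    if act i then xb c r u act gh k i +
      ((r (k i) - c (k i) (xb c r u act gh k i)) / c (k i) (gh i)) • gh i
    else xb c r u act gh k i

private theorem xb_act {K : Type} [Field K] {V : Type} [AddCommGroup V] [Module K V] {κ : Type}
    (c : κ → Dual K V) (r : κ → K) (u : V) (act : ℕ → Prop) (gh : ℕ → V) (k : ℕ → κ) (i : ℕ) (h : act i) :
    xb c r u act gh k (i + 1) = xb c r u act gh k i +
      ((r (k i) - c (k i) (xb c r u act gh k i)) / c (k i) (gh i)) • gh i := by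
  rw [xb, if_pos h]

private theorem xb_idle {K : Type} [Field K] {V : Type} [AddCommGroup V] [Module K V] {κ : Type}
    (c : κ → Dual K V) (r : κ → K) (u : V) (act : ℕ → Prop) (gh : ℕ → V) (k : ℕ → κ) (i : ℕ) (h : ¬ act i) :
    xb c r u act gh k (i + 1) = xb c r u act gh k i := by
  rw [xb, if_neg h]

theorem hLIM (h1 : StCL) (h2 : StPROP) (h3 : StPM) : StLIM := by
  intro K _ _ _ V W _ _ _ _ _ κ M _ _ _ c r f τ u v N p B fl hc hf hδ
  let _ : TopologicalSpace K := Preorder.topology K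
  have _ : OrderTopology K := ⟨rfl⟩
  choose! ε n R z g h hε hεδ hnN hR hu hv hB hcard hT hfl using hδ
  obtain ⟨U, hUT⟩ : ∃ U : Ultrafilter K, (U : Filter K) ≤ 𝓝[>] (0 : K) := ⟨_, Ultrafilter.of_le _⟩
  have hpos : ∀ᶠ δ in (U : Filter K), 0 < δ := hUT self_mem_nhdsWithin
  have hU : Tendsto (fun δ : K => δ) (U : Filter K) (𝓝 0) := tendsto_id'.2 (hUT.trans nhdsWithin_le_nhds)
  obtain ⟨vv, hvv⟩ := ultra_const U (fun δ : K => ((⟨min (n δ) N, by omega⟩ : Fin (N + 1)),
    fun i : Fin N => (h δ i, ((g δ i).2 = 0 : Prop), fun s : κ ⊕ M => lift c f τ (ε δ) s (g δ i) = 0)))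
  obtain ⟨δ₀, h0, h0k⟩ := (hpos.and hvv).exists
  obtain ⟨n₀, hn₀⟩ : ∃ n₀, n₀ = n δ₀ := ⟨_, rfl⟩
  have hnN0 : n₀ ≤ N := by rw [hn₀]; exact hnN δ₀ h0
  have hkey : ∀ᶠ δ in (U : Filter K), 0 < δ ∧ n δ = n₀ ∧ ∀ i < N, h δ i = h δ₀ i ∧
      ((g δ i).2 = 0 ↔ (g δ₀ i).2 = 0) ∧
      ∀ s, lift c f τ (ε δ) s (g δ i) = 0 ↔ lift c f τ (ε δ₀) s (g δ₀ i) = 0 := by
    filter_upwards [hpos, hvv] with δ hp hk
    have e := hk.trans h0k.symm
    simp only [Prod.mk.injEq, Fin.mk.injEq] at e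
    refine ⟨hp, ?_, fun i hi => ?_⟩
    · have a1 := hnN δ hp
      have a2 := hnN δ₀ h0
      omega
    · have e2 := congrFun e.2 ⟨i, hi⟩
      simp only [Prod.mk.injEq] at e2
      exact ⟨e2.1, iff_of_eq e2.2.1, fun s => iff_of_eq (congrFun e2.2.2 s)⟩
  have hD : ∀ᶠ δ in (U : Filter K), Dat c r f τ u v B δ (ε δ) n₀ (R δ) (z δ) (g δ) (h δ) := by
    filter_upwards [hkey] with δ hk
    obtain ⟨hp, hn, -⟩ := hk
    rw [← hn]
    exact ⟨hε δ hp, hεδ δ hp, hR δ hp, hu δ hp, hv δ hp, hB δ hp, hT δ hp⟩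
  have hT0 := hT δ₀ h0
  rw [← hn₀] at hT0
  have hkk : ∀ i, ∃ k : κ, i < n₀ → (g δ₀ i).2 = 0 → h δ₀ i = Sum.inl k := by
    intro i
    by_cases hi : i < n₀ ∧ (g δ₀ i).2 = 0
    · cases hs : h δ₀ i with
      | inl k => exact ⟨k, fun _ _ => rfl⟩
      | inr m =>
        have := hT0.neg i hi.1
        rw [hs, lift_inr, hi.2, map_zero] at this
        exact absurd this (lt_irrefl _)
    · exact ⟨Classical.arbitrary κ, fun a b => absurd ⟨a, b⟩ hi⟩
  choose k hk using hkk
  have hcirc : ∀ i < n₀, (g δ₀ i).2 = 0 → IsCircuit c (g δ₀ i).1 := fun i hi ha =>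
    (h3 K V W κ M c f τ (ε δ₀) (g δ₀ i) hf (hT0.circ i hi)).1 ha
  have hneg : ∀ i < n₀, (g δ₀ i).2 = 0 → c (k i) (g δ₀ i).1 < 0 := by
    intro i hi ha
    have := hT0.neg i hi
    rw [hk i hi ha, lift_inl, ha, map_zero, mul_zero, add_zero] at this
    exact this
  obtain ⟨x, hx⟩ : ∃ x : ℕ → V, x = xb c r u (fun i => (g δ₀ i).2 = 0) (fun i => (g δ₀ i).1) k := ⟨_, rfl⟩
  have hx0 : x 0 = u := by rw [hx]; rfl
  have hxa : ∀ i, (g δ₀ i).2 = 0 → x (i + 1) = x i + ((r (k i) - c (k i) (x i)) / c (k i) (g δ₀ i).1) • (g δ₀ i).1 := by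
    intro i ha
    rw [hx]
    exact xb_act c r u (fun i => (g δ₀ i).2 = 0) (fun i => (g δ₀ i).1) k i ha
  have hxi : ∀ i, ¬ (g δ₀ i).2 = 0 → x (i + 1) = x i := by
    intro i ha
    rw [hx]
    exact xb_idle c r u (fun i => (g δ₀ i).2 = 0) (fun i => (g δ₀ i).1) k i ha
  have hpure : ∀ i < n₀, (g δ₀ i).2 = 0 → (∀ φ : Dual K V, Tendsto (fun δ => φ (z δ i).1) (U : Filter K) (𝓝 (φ (x i)))) →
      0 ≤ (r (k i) - c (k i) (x i)) / c (k i) (g δ₀ i).1 ∧
      ∀ φ : Dual K V, Tendsto (fun δ => φ (z δ (i + 1)).1) (U : Filter K)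
        (𝓝 (φ (x i + ((r (k i) - c (k i) (x i)) / c (k i) (g δ₀ i).1) • (g δ₀ i).1))) := by
    intro i hi ha hxx
    refine pure_step hU hD hi (hneg i hi ha) ?_ ?_ hxx
    · filter_upwards [hkey] with δ hd
      rw [(hd.2.2 i (by omega)).1, hk i hi ha]
    · filter_upwards [hkey, hD] with δ hd hdat
      obtain ⟨-, -, hd2⟩ := hd
      obtain ⟨hd3, hd4, hd5⟩ := hd2 i (by omega)
      have ha' : (g δ i).2 = 0 := hd4.2 ha
      have hc' : IsCircuit c (g δ i).1 :=
        (h3 K V W κ M c f τ (ε δ) (g δ i) hf (hdat.tr.circ i hi)).1 ha'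
      have hiff : ∀ k, c k (g δ₀ i).1 = 0 ↔ c k (g δ i).1 = 0 := by
        intro k
        have := hd5 (Sum.inl k)
        rw [lift_inl, lift_inl, ha, ha', map_zero, mul_zero, mul_zero, add_zero, add_zero] at this
        exact this.symm
      obtain ⟨t, ht, hgt⟩ := h2 K V κ c (g δ₀ i).1 (g δ i).1 hc (hcirc i hi ha) hc' hiff
      refine ⟨t, ?_, hgt⟩
      have hn2 := hdat.tr.neg i hi
      rw [hd3, hk i hi ha, lift_inl, ha', map_zero, mul_zero, add_zero, hgt, map_smul, smul_eq_mul] at hn2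
      have hn3 := hneg i hi ha
      by_contra hcon
      have : 0 ≤ t * c (k i) (g δ₀ i).1 := mul_nonneg_of_nonpos_of_nonpos (not_lt.1 hcon) hn3.le
      linarith
  have hconv : ∀ i ≤ n₀, ∀ φ : Dual K V, Tendsto (fun δ => φ (z δ i).1) (U : Filter K) (𝓝 (φ (x i))) := by
    intro i
    induction i with
    | zero =>
      intro _ φ
      rw [hx0]
      refine tendsto_const_nhds.congr' ?_
      filter_upwards [hD] with δ hd
      rw [hd.start]
    | succ i ih =>
      intro hi φ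
      have hxx := ih (by omega)
      by_cases ha : (g δ₀ i).2 = 0
      · rw [hxa i ha]
        exact (hpure i (by omega) ha hxx).2 φ
      · rw [hxi i ha]
        have hs := (h3 K V W κ M c f τ (ε δ₀) (g δ₀ i) hf (hT0.circ i (by omega))).2 ha
        have hm := mixed_step hU hD (i := i) (by omega) (Z := {k | lift c f τ (ε δ₀) (Sum.inl k) (g δ₀ i) = 0})
          (by
            filter_upwards [hkey] with δ hd
            intro k hk
            exact ((hd.2.2 i (by omega)).2.2 (Sum.inl k)).2 hk) hs φ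
        have := (hxx φ).add hm
        rw [add_zero] at this
        refine this.congr fun δ => ?_
        ring
  have hpoly : ∀ i ≤ n₀, x i ∈ Poly c r := by
    intro i hi k
    have t1 : Tendsto (fun δ => R δ (Sum.inl k)) (U : Filter K) (𝓝 (r k)) := by
      refine tendsto_of_abs hU (A := 1) ?_
      filter_upwards [hD] with δ hd
      rw [one_mul]
      exact (hd.near k).le
    have t2 : Tendsto (fun δ => ε δ * τ k (z δ i).2) (U : Filter K) (𝓝 0) := by
      refine tendsto_of_abs hU (A := B) ?_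
      filter_upwards [hD] with δ hd
      rw [sub_zero]
      exact rest_bound hd i hi k
    have t3 := (hconv i hi (c k)).add t2
    rw [add_zero] at t3
    refine le_of_tendsto_of_tendsto t1 t3 ?_
    filter_upwards [hD] with δ hd
    have := hd.tr.poly i hi (Sum.inl k)
    rwa [lift_inl] at this
  have hend : x n₀ = v := by
    rw [← sub_eq_zero]
    apply hc
    intro k
    have t1 := hconv n₀ le_rfl (c k)
    have t2 : Tendsto (fun δ => c k (z δ n₀).1) (U : Filter K) (𝓝 (c k v)) := by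
      refine tendsto_of_abs hU (A := 1) ?_
      filter_upwards [hD] with δ hd
      rw [one_mul, ← map_sub]
      exact (hd.fin k).le
    rw [map_sub, tendsto_nhds_unique t1 t2, sub_self]
  have hlazy : Lazy c r n₀ (fun i => (g δ₀ i).2 = 0) x (fun i => (g δ₀ i).1) k := by
    refine ⟨hpoly, fun i _ ha => hxi i ha, fun i hi ha => hcirc i hi ha, fun i hi ha => hneg i hi ha, ?_, ?_⟩
    · intro i hi ha
      have := (hneg i hi ha).ne
      rw [hxa i ha, map_add, map_smul, smul_eq_mul, div_mul_cancel₀ _ this]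
      ring
    · intro i hi ha
      exact ⟨_, (hpure i hi ha (hconv i hi.le)).1, hxa i ha⟩
  obtain ⟨m, hm, hw, hkw⟩ := h1 K V κ c r n₀ _ x _ k hlazy
  rw [hx0, hend] at hw hkw
  have hcard0 := hcard δ₀ h0
  rw [← hn₀] at hcard0
  refine ⟨m, hm.trans hcard0, hw, fun hfl' => hkw ?_⟩
  intro i l hil hl hai hal
  have := hfl δ₀ h0 hfl' i l hil (by rw [← hn₀]; exact hl)
  rw [hk i (by omega) hai, lift_inl, hal, map_zero, mul_zero, add_zero] at this
  exact this

end Pool.Agent.Helper94.CD
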